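import Pool.Agent.H10.PB.Targets

set_option autoImplicit false

/-!
# MP_b95bd9_al, module NCL
-/

open MeasureTheory Filter Topology
open scoped commutatorElement
open Pool.Agent.H10.PS Pool.Agent.H10.PB

namespace Pool.Agent.H36.PB

variable {r : ℕ}

/-- a quotient of the free group in which the generators commute is abelian -/
lemma commutator_le_of_gens (N : Subgroup (FG r)) (hN : N.Normal)
    (h : ∀ i j : Fin r, ⁅(FreeGroup.of i : FG r), FreeGroup.of j⁆ ∈ N) :
    commutator (FG r) ≤ N := by
  have h1 : ∀ (x : FG r) (i : Fin r),
      Commute (QuotientGroup.mk' N x) (QuotientGroup.mk' N (FreeGroup.of i)) := by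
    intro x i
    induction x using FreeGroup.induction_on with
    | C1 => simp
    | of j =>
      rw [← commutatorElement_eq_one_iff_commute, ← map_commutatorElement]
      exact (QuotientGroup.eq_one_iff _).mpr (h j i)
    | inv_of j hj =>
      rw [map_inv]
      exact hj.inv_left
    | mul x y hx hy =>
      rw [map_mul]
      exact hx.mul_left hy
  have h2 : ∀ x y : FG r, Commute (QuotientGroup.mk' N x) (QuotientGroup.mk' N y) := by
    intro x y
    induction y using FreeGroup.induction_on with
    | C1 => simp
    | of j => exact h1 x j
    | inv_of j hj =>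
      rw [map_inv]
      exact hj.inv_right
    | mul y z hy hz =>
      rw [map_mul]
      exact hy.mul_right hz
  rw [commutator_def, Subgroup.commutator_le]
  intro x _ y _
  have h3 := h2 x y
  rw [← commutatorElement_eq_one_iff_commute, ← map_commutatorElement] at h3
  exact (QuotientGroup.eq_one_iff _).mp h3

theorem t_NCL : T_NCL := by
  classical
  intro r R hR hc
  obtain ⟨S, hS⟩ := exists_finset_sup (commutator (FG r)) inferInstance le_rfl R hc
  set Cs : Finset (FG r) := (Finset.univ : Finset (Fin r × Fin r)).image
    (fun x => ⁅(FreeGroup.of x.1 : FG r), FreeGroup.of x.2⁆) with hCs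
  refine ⟨S ∪ Cs, ?_⟩
  apply le_antisymm
  · apply Subgroup.normalClosure_le_normal
    intro x hx
    rw [Finset.coe_union] at hx
    rcases hx with hx | hx
    · rw [← hS]
      exact Subgroup.mem_sup_right (Subgroup.subset_closure hx)
    · apply hc
      rw [hCs, Finset.coe_image] at hx
      obtain ⟨z, _, rfl⟩ := hx
      rw [commutator_def]
      exact Subgroup.commutator_mem_commutator (Subgroup.mem_top _) (Subgroup.mem_top _)
  · rw [← hS]
    apply sup_le
    · apply commutator_le_of_gens _ Subgroup.normalClosure_normal
      intro i j
      apply Subgroup.subset_normalClosure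
      rw [Finset.coe_union]
      right
      rw [hCs, Finset.coe_image]
      exact ⟨(i, j), by simp, rfl⟩
    · rw [Subgroup.closure_le]
      intro x hx
      apply Subgroup.subset_normalClosure
      rw [Finset.coe_union]
      exact Or.inl hx

end Pool.Agent.H36.PB
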